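import Mathlib
import Pool.Agent.H.MP_20d9b9_al.Reg

namespace Pool.Agent.Results.MP_20d9b9_al.Reg

open Pool.Agent.H.MP_20d9b9_al

theorem result (A : Type) [Ring A] (φ : RingAut A) :
    (∃ (R : Type) (_ : Ring R) (c : R →+ ℤ → A), IsSL φ c) ∧
    ∀ (R : Type) [Ring R] (c : R →+ ℤ → A), IsSL φ c → (∀ r : R, ∃ s : R, r = r * s * r) →
      IsArtinianRing R ∧ IsArtinianRing Rᵐᵒᵖ ∧ IsSemisimpleRing R := by
  refine ⟨⟨SL φ, inferInstance, cSL φ, isSL φ⟩, fun R _ c h hR => ?_⟩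
  have := h.ssR hR
  exact ⟨inferInstance, inferInstance, this⟩

end Pool.Agent.Results.MP_20d9b9_al.Reg
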